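import Pool.Agent.Q34.WR.Neg

/-!
# A linear quotient whose stringy motive is no finite sum of fractions `{Z} / (L^a - 1)`

`K` is an algebraic closure of `𝔽₃`, `G = (ℤ/3)³`, and `G` acts on `K^{48}`, as `8` copies of
`K³ × K³`, by `g (x, y) = (x, y + (g₀ x₀, g₁ x₁, g₂ x₂))` (the matrices `repD 8 g`). By Yasuda's
formula the stringy motive of `K^{48} / G` is `∑_a {v⁻¹(a)} L^{48 - a}`, `a ∈ (1/27)ℤ`. Here the
`G`-torsors over `Spec K((t))` are parametrised by `ℕ →₀ K` (Artin-Schreier theory: `fser`),
`vD 8 F` is `27 v(F)` (computed from the ring of integers of the torsor algebra and the tuning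
module), and `stringyD 8 n` is the sum of the terms with `a ≤ n / 27`.
-/

namespace Pool.Agent.Results.MP_75199a_ag.NotWeaklyRational

open Pool.Agent.Helper449.MST Pool.Agent.Q34.WR

/-- The action of `G = (ℤ/3)³` on `K^{48}` is linear and faithful, and the fixed locus of every
`g ≠ 0` has codimension at least `8`: there is no pseudo-reflection. -/
def ActionOk : Prop :=
  Fintype.card (Idx 8) = 48 ∧ (∀ g h, repD 8 (g + h) = repD 8 g * repD 8 h) ∧
    Function.Injective (repD 8) ∧ ∀ g, g ≠ 0 → 8 ≤ (repD 8 g - 1).rank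

/-- Every class of `(K((t)) / ℘ K((t)))³`, `℘ h = h³ - h`, that is every `G`-torsor over
`Spec K((t))`, is that of exactly one `F`. -/
def TorsorsOk : Prop :=
  ∀ f : Fin 3 → LaurentSeries K, ∃! F : ℕ →₀ K, ∃ h : Fin 3 → LaurentSeries K,
    ∀ l, f l - fser F l = h l ^ 3 - h l

/-- `v` is finite, and all torsors with `v = b / 27` lie in the space `K^b` in which the level
set `levelD 8 b` is taken. -/
def LevelsOk : Prop :=
  ∀ F, vD 8 F ≠ ⊤ ∧ ∀ b : ℕ, vD 8 F = b → ∀ i, b ≤ i → F i = 0

theorem result : ActionOk ∧ TorsorsOk ∧ LevelsOk ∧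
    -- the stringy motive is finite,
    ConvergesMod relSub (stringyD 8) ∧
    -- it is not a finite sum of fractions `{Z_i} / (L^{a_i} - 1)` with varieties `Z_i` and
    -- `a_i ∈ (1/27) ℤ_{>0}`,
    ¬ WeaklyRational relSub (stringyD 8) ∧
    -- not even if the `{Z_i}` are replaced by any elements of the Grothendieck ring with `L⁻¹`
    -- and `L^{1/27}` adjoined, products of two denominators are allowed, and universally
    -- homeomorphic varieties are identified.
    ¬ FracMod 2 relSubUH (stringyD 8) := by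
  refine ⟨⟨by simp [Fintype.card_prod, Fintype.card_sum], repD_add 8,
    repD_injective 8 (by norm_num), fun g hg => repD_rank 8 g hg⟩, torsor_param, ?_,
    stringyD_converges, ?_, not_frac⟩
  · intro F
    refine ⟨?_, fun b hb i hi => ?_⟩
    · rw [vD_eq]
      exact ENat.coe_ne_top _
    · rw [vD_eq] at hb
      have h2 : 27 * 8 * sD F = b := by exact_mod_cast hb
      exact support_sD F i (by omega)
  · intro h
    obtain ⟨k, x, M, hM, h⟩ := h.frac.mono (r' := 2) (by norm_num)
    refine not_frac ⟨k, x, M, hM, fun e => ?_⟩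
    obtain ⟨n₀, hn₀⟩ := h e
    exact ⟨n₀, fun n hn => sup_le_sup_right relSub_le (Fil e) (hn₀ n hn)⟩

end Pool.Agent.Results.MP_75199a_ag.NotWeaklyRational
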